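import Pool.Agent.helper70.BND.SpecH

/-! # Project bnd, block H: row PRF (constant paths) -/

set_option autoImplicit false

open scoped Topology
open Finset

namespace Pool.Agent.BND.EX

theorem PRF : PRF_stmt := by
  intro l Q
  refine ⟨fun w hw => ⟨fun _ => w, ?_⟩, ?_⟩
  · exact
      { q := fun _ _ => hw
        ht := fun _ _ => rfl
        ht' := rfl
        cts := fun _ _ _ _ => continuousOn_const
        at0 := fun _ _ _ _ => rfl
        at1 := fun _ _ _ _ => rfl
        vis := fun a ha => absurd ha (Set.notMem_empty a)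
        lg := fun lam nn _ => ⟨fun _ => sw lam w, continuousOn_const, fun _ _ => rfl, rfl, by simp⟩ }
  · rintro w w' d d' vs vs' ⟨γ, h⟩ hd hvs
    refine ⟨γ, ⟨h.q, h.ht, h.ht', h.cts, h.at0, h.at1, fun a ha => h.vis a (hvs ha), ?_⟩⟩
    intro lam nn hlog
    obtain ⟨Lam, h1, h2, h3, h4⟩ := h.lg lam nn hlog
    refine ⟨Lam, h1, h2, h3, ?_⟩
    have hs : ∑ e ∈ range l.N, d e * nn e = ∑ e ∈ range l.N, d' e * nn e :=
      Finset.sum_congr rfl fun e he => by rw [hd e (Finset.mem_range.1 he)]
    rw [h4, hs]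

end Pool.Agent.BND.EX
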